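import Mathlib

set_option autoImplicit false

namespace Pool.Agent.Results.MP_5daced_lc.DirectedBisim

/-- Formulas built from literals and constants by and, or, diamond, box. -/
inductive Fm : Type
  | pos : ℕ → Fm
  | neg : ℕ → Fm
  | bot : Fm
  | top : Fm
  | and : Fm → Fm → Fm
  | or : Fm → Fm → Fm
  | dia : Fm → Fm
  | box : Fm → Fm

/-- `PosIn P a`: no literal `¬p` with `p` in the tuple `P` occurs in `a`. -/
def PosIn (P : List ℕ) : Fm → Prop
  | .pos _ => True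
  | .neg n => n ∉ P
  | .bot => True
  | .top => True
  | .and a b => PosIn P a ∧ PosIn P b
  | .or a b => PosIn P a ∧ PosIn P b
  | .dia a => PosIn P a
  | .box a => PosIn P a

/-- A neighborhood frame on `W`: a monotone operator on subsets. -/
structure NFrame (W : Type) where
  dia : Set W → Set W
  mono : ∀ X Y, X ⊆ Y → dia X ⊆ dia Y

/-- The value of a formula in the model `(F, θ)`. -/
def eval {W : Type} (F : NFrame W) (θ : ℕ → Set W) : Fm → Set W
  | .pos n => θ n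
  | .neg n => (θ n)ᶜ
  | .bot => ∅
  | .top => Set.univ
  | .and a b => eval F θ a ∩ eval F θ b
  | .or a b => eval F θ a ∪ eval F θ b
  | .dia a => F.dia (eval F θ a)
  | .box a => (F.dia (eval F θ a)ᶜ)ᶜ

/-- The image `Z(X)`. -/
def img {W : Type} (Z : W → W → Prop) (X : Set W) : Set W := {w₂ | ∃ w₁ ∈ X, Z w₁ w₂}

/-- `Z` is a bisimulation between `F` and `F`. -/
def Bisim {W : Type} (F : NFrame W) (Z : W → W → Prop) : Prop :=
  (∀ X, img Z (F.dia X) ⊆ F.dia (img Z X)) ∧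
    ∀ X, img (fun x y => Z y x) (F.dia X) ⊆ F.dia (img (fun x y => Z y x) X)

/-- `Z` is a `P`-directed bisimulation from `(F, θ₁)` to `(F, θ₂)`. -/
def Directed {W : Type} (F : NFrame W) (P : List ℕ) (θ₁ θ₂ : ℕ → Set W) (Z : W → W → Prop) :
    Prop :=
  Bisim F Z ∧ (∀ n, img Z (eval F θ₁ (.pos n)) ⊆ eval F θ₂ (.pos n)) ∧
    ∀ n, n ∉ P → img Z (eval F θ₁ (.neg n)) ⊆ eval F θ₂ (.neg n)

/-! ### Proof -/

variable {W : Type} (F : NFrame W) (P : List ℕ)

theorem preserved {θ₁ θ₂ : ℕ → Set W} {Z : W → W → Prop} (h : Directed F P θ₁ θ₂ Z) (a : Fm)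
    (ha : PosIn P a) : img Z (eval F θ₁ a) ⊆ eval F θ₂ a := by
  induction a with
  | pos n => exact h.2.1 n
  | neg n => exact h.2.2 n ha
  | bot => rintro y ⟨x, hx, -⟩; exact hx
  | top => exact fun _ _ => trivial
  | and a b iha ihb =>
    rintro y ⟨x, hx, hz⟩
    exact ⟨iha ha.1 ⟨x, hx.1, hz⟩, ihb ha.2 ⟨x, hx.2, hz⟩⟩
  | or a b iha ihb =>
    rintro y ⟨x, hx | hx, hz⟩
    · exact Or.inl (iha ha.1 ⟨x, hx, hz⟩)
    · exact Or.inr (ihb ha.2 ⟨x, hx, hz⟩)
  | dia a ih => exact (h.1.1 _).trans (F.mono _ _ (ih ha))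
  | box a ih =>
    rintro y ⟨x, hx, hz⟩ hy
    refine hx (F.mono _ _ ?_ (h.1.2 _ ⟨y, hy, hz⟩))
    rintro u ⟨v, hv, huv⟩ hu
    exact hv (ih ha ⟨u, hu, huv⟩)

/-- Truth at a pointed model. -/
def sat (z : (ℕ → Set W) × W) (a : Fm) : Prop := z.2 ∈ eval F z.1 a

theorem sep1 (x : (ℕ → Set W) × W) (B : Set ((ℕ → Set W) × W)) (hB : B.Finite)
    (h : ∀ y ∈ B, ∃ c, PosIn P c ∧ sat F x c ∧ ¬ sat F y c) :
    ∃ c, PosIn P c ∧ sat F x c ∧ ∀ y ∈ B, ¬ sat F y c := by
  induction B, hB using Set.Finite.induction_on with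
  | empty => exact ⟨.top, trivial, trivial, fun _ h => h.elim⟩
  | @insert y B _ _ ih =>
    obtain ⟨c, h1, h2, h3⟩ := ih fun z hz => h z (Or.inr hz)
    obtain ⟨d, h4, h5, h6⟩ := h y (Or.inl rfl)
    refine ⟨.and c d, ⟨h1, h4⟩, ⟨h2, h5⟩, ?_⟩
    rintro z (rfl | hz) hs
    · exact h6 hs.2
    · exact h3 z hz hs.1

theorem sep (A B : Set ((ℕ → Set W) × W)) (hA : A.Finite) (hB : B.Finite)
    (h : ∀ x ∈ A, ∀ y ∈ B, ∃ c, PosIn P c ∧ sat F x c ∧ ¬ sat F y c) :
    ∃ c, PosIn P c ∧ (∀ x ∈ A, sat F x c) ∧ ∀ y ∈ B, ¬ sat F y c := by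
  induction A, hA using Set.Finite.induction_on with
  | empty => exact ⟨.bot, trivial, fun _ h => h.elim, fun _ _ h => h⟩
  | @insert x A _ _ ih =>
    obtain ⟨c, h1, h2, h3⟩ := ih fun z hz => h z (Or.inr hz)
    obtain ⟨d, h4, h5, h6⟩ := sep1 F P x B hB (h x (Or.inl rfl))
    refine ⟨.or c d, ⟨h1, h4⟩, ?_, ?_⟩
    · rintro z (rfl | hz)
      · exact Or.inr h5
      · exact Or.inl (h2 z hz)
    · rintro z hz (hs | hs)
      · exact h3 z hz hs
      · exact h6 z hz hs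

theorem sepW [Finite W] (θ₁ θ₂ : ℕ → Set W) (X Y : Set W)
    (h : ∀ x ∈ X, ∀ y ∈ Y, ¬ ∀ c, PosIn P c → x ∈ eval F θ₁ c → y ∈ eval F θ₂ c) :
    ∃ c, PosIn P c ∧ X ⊆ eval F θ₁ c ∧ Y ⊆ (eval F θ₂ c)ᶜ := by
  obtain ⟨c, h1, h2, h3⟩ := sep F P ((fun x => (θ₁, x)) '' X) ((fun x => (θ₂, x)) '' Y)
    (X.toFinite.image _) (Y.toFinite.image _) (by
      rintro _ ⟨x, hx, rfl⟩ _ ⟨y, hy, rfl⟩
      have := h x hx y hy
      push Not at this
      exact this)
  exact ⟨c, h1, fun x hx => h2 _ ⟨x, hx, rfl⟩, fun y hy => h3 _ ⟨y, hy, rfl⟩⟩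

theorem directed_can [Finite W] (θ₁ θ₂ : ℕ → Set W) :
    Directed F P θ₁ θ₂ fun x y => ∀ c, PosIn P c → x ∈ eval F θ₁ c → y ∈ eval F θ₂ c := by
  refine ⟨⟨?_, ?_⟩, ?_, ?_⟩
  · rintro X y ⟨x, hx, hz⟩
    obtain ⟨c, h1, h2, h3⟩ := sepW F P θ₁ θ₂ X (img _ X)ᶜ fun u hu v hv huv => hv ⟨u, hu, huv⟩
    exact F.mono _ _ (Set.compl_subset_compl.1 h3) (hz (.dia c) h1 (F.mono _ _ h2 hx))
  · rintro Y x ⟨y, hy, hz⟩
    by_contra hx
    obtain ⟨c, h1, h2, h3⟩ := sepW F P θ₁ θ₂ (img _ Y)ᶜ Y fun u hu v hv huv => hu ⟨v, hv, huv⟩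
    exact hz (.box c) h1 (fun hh => hx (F.mono _ _ (Set.compl_subset_comm.1 h2) hh))
      (F.mono _ _ h3 hy)
  · rintro n y ⟨x, hx, hz⟩
    exact hz (.pos n) trivial hx
  · rintro n hn y ⟨x, hx, hz⟩
    exact hz (.neg n) hn hx

def bound : Fm → ℕ
  | .pos n => n + 1
  | .neg n => n + 1
  | .bot => 0
  | .top => 0
  | .and a b => max (bound a) (bound b)
  | .or a b => max (bound a) (bound b)
  | .dia a => bound a
  | .box a => bound a

def cut (N : ℕ) (θ : ℕ → Set W) : ℕ → Set W := fun n => if n < N then θ n else ∅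

theorem eval_cut (N : ℕ) (θ : ℕ → Set W) (a : Fm) (h : bound a ≤ N) :
    eval F (cut N θ) a = eval F θ a := by
  induction a with
  | pos n => exact if_pos h
  | neg n => exact congrArg compl (if_pos h)
  | bot => rfl
  | top => rfl
  | and a b iha ihb => simp only [eval]; rw [iha (le_of_max_le_left h), ihb (le_of_max_le_right h)]
  | or a b iha ihb => simp only [eval]; rw [iha (le_of_max_le_left h), ihb (le_of_max_le_right h)]
  | dia a ih => simp only [eval]; rw [ih h]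
  | box a ih => simp only [eval]; rw [ih h]

def cutF (N : ℕ) : Fm → Fm
  | .pos n => if n < N then .pos n else .bot
  | .neg n => if n < N then .neg n else .top
  | .bot => .bot
  | .top => .top
  | .and a b => .and (cutF N a) (cutF N b)
  | .or a b => .or (cutF N a) (cutF N b)
  | .dia a => .dia (cutF N a)
  | .box a => .box (cutF N a)

theorem eval_cutF (N : ℕ) (θ : ℕ → Set W) (a : Fm) :
    eval F θ (cutF N a) = eval F (cut N θ) a := by
  induction a with
  | pos n => by_cases h : n < N <;> simp [cutF, cut, eval, h]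
  | neg n => by_cases h : n < N <;> simp [cutF, cut, eval, h]
  | _ => simp_all [cutF, eval]

theorem posIn_cutF (N : ℕ) (a : Fm) (h : PosIn P a) : PosIn P (cutF N a) := by
  induction a with
  | pos n => by_cases h' : n < N <;> simp [cutF, PosIn, h']
  | neg n =>
    by_cases h' : n < N
    · simpa [cutF, h'] using h
    · simp [cutF, PosIn, h']
  | _ => simp_all [cutF, PosIn]

theorem fin_cut [Finite W] (N : ℕ) : (Set.range (cut (W := W) N)).Finite := by
  refine (Set.finite_range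
    fun (f : Fin N → Set W) (n : ℕ) => if h : n < N then f ⟨n, h⟩ else ∅).subset ?_
  rintro _ ⟨θ, rfl⟩
  refine ⟨fun i => θ i, funext fun n => ?_⟩
  by_cases h : n < N <;> simp [cut, h]

/-- On a finite neighborhood frame, a formula is equivalent to a `P`-positive formula iff it is
preserved under all `P`-directed bisimulations between models on the frame. -/
theorem result (W : Type) [Finite W] (F : NFrame W) (P : List ℕ) (a : Fm) :
    (∃ b, PosIn P b ∧ ∀ θ, eval F θ a = eval F θ b) ↔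
      ∀ θ₁ θ₂ Z, Directed F P θ₁ θ₂ Z → img Z (eval F θ₁ a) ⊆ eval F θ₂ a := by
  constructor
  · rintro ⟨b, hb, h⟩ θ₁ θ₂ Z hZ
    rw [h, h]
    exact preserved F P hZ b hb
  · intro h
    have hfin : ((Set.range (cut (W := W) (bound a))) ×ˢ (Set.univ : Set W)).Finite :=
      (fin_cut _).prod Set.finite_univ
    obtain ⟨c, h1, h2, h3⟩ := sep F P
      {z ∈ (Set.range (cut (W := W) (bound a))) ×ˢ (Set.univ : Set W) | sat F z a}
      {z ∈ (Set.range (cut (W := W) (bound a))) ×ˢ (Set.univ : Set W) | ¬ sat F z a}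
      (hfin.subset fun _ hz => hz.1) (hfin.subset fun _ hz => hz.1) (by
        rintro x ⟨-, hx⟩ y ⟨-, hy⟩
        by_contra hc
        push Not at hc
        exact hy (h _ _ _ (directed_can F P x.1 y.1) ⟨x.2, hx, hc⟩))
    refine ⟨cutF (bound a) c, posIn_cutF P _ c h1, fun θ => ?_⟩
    rw [eval_cutF, ← eval_cut F (bound a) θ a le_rfl]
    ext w
    constructor
    · exact fun hw => h2 (_, w) ⟨⟨⟨θ, rfl⟩, trivial⟩, hw⟩
    · intro hw
      by_contra hc
      exact h3 (_, w) ⟨⟨⟨θ, rfl⟩, trivial⟩, hc⟩ hw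

end Pool.Agent.Results.MP_5daced_lc.DirectedBisim
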